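import Pool.Agent.Q33.PSk.Example

/-!
# The recipe of Q2 for projectional generators

The definitions (`Skeleton`, `Skeleton.induced`, `Skeleton.Bounded`, `Skeleton.Recipe`,
`IsGenerator`) are in `Pool.Agent.Q33.PSk.Basic`.
-/

set_option autoImplicit false

namespace Pool.Agent.Results.MP_2163b8_an.RecipeAndReflexivity

open Pool.Agent.Q33.PSk

universe u

/-- (1) There are a projectional skeleton with uniformly bounded projections on the (separable)
Banach space of continuous functions on `[0, 1]` and a choice of `s(f)` and of the countable dense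
sets `Φ f ⊆ P_{s(f)} X` for which `(D, Φ)` is not a projectional generator.
(2) If a real Banach space `X` of dimension at least two has a projectional skeleton with induced
subspace `D`, then `X` has a projectional skeleton with the same induced subspace `D` for which the
recipe fails.
(3) If `X` has a projectional skeleton with uniformly bounded projections and with induced subspace
`D`, then the recipe works for all skeletons of this kind (with uniformly bounded projections and the
same induced subspace) and all choices if and only if `X` is reflexive. -/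
theorem result :
    (∃ (Γ : Type) (_ : PartialOrder Γ) (S : Skeleton C(unitInterval, ℝ) Γ)
      (Φ : StrongDual ℝ C(unitInterval, ℝ) → Set C(unitInterval, ℝ)),
      S.Bounded ∧ S.Recipe Φ ∧ ¬ IsGenerator S.induced Φ) ∧
    ∀ (X : Type u) [NormedAddCommGroup X] [NormedSpace ℝ X] [CompleteSpace X] (Γ : Type u)
      [PartialOrder Γ] (S : Skeleton X Γ),
      (1 < Module.rank ℝ X → ∃ (Γ' : Type u) (_ : PartialOrder Γ') (S' : Skeleton X Γ')
        (Φ : StrongDual ℝ X → Set X),
        S'.induced = S.induced ∧ S'.Recipe Φ ∧ ¬ IsGenerator S.induced Φ) ∧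
      (S.Bounded →
        ((∀ (Γ' : Type u) [PartialOrder Γ'] (S' : Skeleton X Γ') (Φ : StrongDual ℝ X → Set X),
          S'.Bounded → S'.induced = S.induced → S'.Recipe Φ → IsGenerator S.induced Φ) ↔
        Function.Surjective (NormedSpace.inclusionInDoubleDual ℝ X))) := by
  refine ⟨example_fails, ?_⟩
  intro X _ _ _ Γ _ S
  refine ⟨fails_always S, fun hS => ⟨fun h => ?_, fun hX Γ' _ S' Φ hS' hD hΦ => ?_⟩⟩
  · by_contra hX
    obtain ⟨Γ', o, S', Φ, h1, h2, h3, h4⟩ := fails_bounded S hS hX
    exact h4 (h Γ' S' Φ h1 h2 h3)
  · rw [← hD]
    exact S'.works hS' hX Φ hΦ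

end Pool.Agent.Results.MP_2163b8_an.RecipeAndReflexivity
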